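import Mathlib
import Pool.Agent.Lib.MP_cecf76_co.Core
import Pool.Agent.Lib.MP_cecf76_co.HS.Wide83
import Pool.Agent.Lib.MP_cecf76_co.HS.Kn87

set_option autoImplicit false

namespace Pool.Agent.Results.MP_cecf76_co.AllSizes

open Pool.Agent.Lib.MP_cecf76_co

/-- Lower bound for all `n, m ≥ 1`. -/
lemma lower_exp {n m : ℕ} {c ε : ℝ} (hn : 0 < n) (hm : 0 < m) (hε : 0 < ε) (hεc : ε < c)
    (hc : c < 1) :
    (c - ε) / 2 * m * Real.exp (-(min (ε * Real.log (1 / (c - ε)) * n)
      (Real.log (1 / c) / Real.log (c / ε) * Real.log m))) ≤ (f n m c ε : ℝ) := by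
  have hc0 : 0 < c := hε.trans hεc
  have hmR : (1 : ℝ) ≤ m := by exact_mod_cast hm
  have hm0 : (0 : ℝ) < m := by linarith
  have hd : 0 < c - ε := by linarith
  rcases le_total (ε * Real.log (1 / (c - ε)) * n)
    (Real.log (1 / c) / Real.log (c / ε) * Real.log m) with h | h
  · rw [min_eq_left h]
    have h1 := lower_small (n := n) (m := m) hn hε hεc hc
    have h2 : (c - ε) ^ (ε * n + 1)
        = (c - ε) * Real.exp (-(ε * Real.log (1 / (c - ε)) * n)) := by
      rw [Real.rpow_add hd, Real.rpow_one, mul_comm, Real.rpow_def_of_pos hd]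
      congr 1
      congr 1
      rw [one_div, Real.log_inv]; ring
    rw [h2] at h1
    refine le_trans ?_ h1
    have h4 : (c - ε) / 2 * m ≤ m * (c - ε) := by nlinarith
    calc (c - ε) / 2 * m * Real.exp (-(ε * Real.log (1 / (c - ε)) * n))
        ≤ m * (c - ε) * Real.exp (-(ε * Real.log (1 / (c - ε)) * n)) :=
          mul_le_mul_of_nonneg_right h4 (Real.exp_pos _).le
      _ = _ := by ring
  · rw [min_eq_right h]
    have h1 := lower (n := n) (m := m) hn hm hε hεc hc
    have h2 : (m : ℝ) ^ (1 - Real.log (1 / c) / Real.log (c / ε))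
        = m * Real.exp (-(Real.log (1 / c) / Real.log (c / ε) * Real.log m)) := by
      rw [sub_eq_add_neg, Real.rpow_add hm0, Real.rpow_one, Real.rpow_def_of_pos hm0]
      congr 1
      congr 1
      ring
    rw [h2] at h1
    refine le_trans ?_ h1
    have h4 : (c - ε) / 2 * m ≤ c / 2 * m := by nlinarith
    calc (c - ε) / 2 * m * Real.exp (-(Real.log (1 / c) / Real.log (c / ε) * Real.log m))
        ≤ c / 2 * m * Real.exp (-(Real.log (1 / c) / Real.log (c / ε) * Real.log m)) :=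
          mul_le_mul_of_nonneg_right h4 (Real.exp_pos _).le
      _ = _ := by ring

/-- Two-sided bounds for `f(n, m, c, ε)` for all `0 < ε < c < 1/2` and all `n, m ≥ 1`. For fixed
`c`: `log (m / f)` has order `ε n` for `n ≤ log m`, and order `log m / Y` up to a factor `log Y`
for `n ≥ log m`, where `Y = log (1/ε) + log m / (ε n)`. -/
theorem result : ∀ c ε : ℝ, 0 < ε → ε < c → c < 1 / 2 → ∀ n m : ℕ, 0 < n → 0 < m →
    ∀ X Λ : ℝ, X = min (Real.log m) ((1 / 2 - c) ^ 2 / 16 * n) →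
    Λ = 64 * (Real.log (8 / ε) + 3 * X / (ε * n)) / (1 / 2 - c) ^ 2 →
    (c - ε) / 2 * m * Real.exp (-(min (ε * Real.log (1 / (c - ε)) * n)
      (Real.log (1 / c) / Real.log (c / ε) * Real.log m))) ≤ (f n m c ε : ℝ) ∧
    (f n m c ε : ℝ) ≤ 13 * m * Real.exp (-(X / (32 * Λ * Real.log (9 * Λ)))) ∧
    (f n m c ε : ℝ) ≤ 6 / (1 / 2 - c) ^ 2 * m * Real.exp (-(ε / 2 *
      Real.log ((3 - 2 * c) / (1 + 2 * c)) * min (n : ℝ) (Real.log m))) := by
  intro c ε hε hεc hc n m hn hm X Λ hX hΛ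
  exact ⟨lower_exp hn hm hε hεc (by linarith), HS.wide n m c ε X Λ hn hm hε hεc.le hc hX hΛ,
    HS.kn n m c ε hn hm hε hεc.le hc⟩

end Pool.Agent.Results.MP_cecf76_co.AllSizes
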