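import Mathlib
import Pool.Agent.Lib.MP_cecf76_co.HS.AsmA83
import Pool.Agent.Lib.MP_cecf76_co.HS.A1b_87
import Pool.Agent.Lib.MP_cecf76_co.HS.Growth32

set_option autoImplicit false

namespace Pool.Agent.Results.MP_cecf76_co.HalfSpaces

open Pool.Agent.Lib.MP_cecf76_co.HS

/-- Half space systems `{x : t ≤ ⟨v, x⟩}` in Gaussian space, `t > 0` fixed, `L = log (1/ε)`:
every `m` of them contain at least `b m ^ (1 - C / (L log L))` whose pairwise intersections have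
measure more than `ε`, and for every `m` there are `m` half spaces that do not contain more than
`13 m ^ (1 - c / (L log L))` such ones. -/
theorem result : ∀ t : ℝ, 0 < t → ∃ C c L₀ : ℝ, 0 < C ∧ 0 < c ∧ 1 < L₀ ∧ ∀ ε L : ℝ, 0 < ε →
    L = Real.log (1 / ε) → L₀ ≤ L →
    (∃ b : ℝ, 0 < b ∧ ∀ (N m : ℕ) (v : Fin m → EuclideanSpace ℝ (Fin N)), 0 < m →
      (∀ i, ‖v i‖ = 1) → ∃ I : Finset (Fin m),
        b * (m : ℝ) ^ (1 - C / (L * Real.log L)) ≤ (I.card : ℝ) ∧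
        ∀ i ∈ I, ∀ j ∈ I, i ≠ j → ε < mu2 t (v i) (v j)) ∧
    (∀ m : ℕ, 0 < m → ∃ (N : ℕ) (v : Fin m → EuclideanSpace ℝ (Fin N)), (∀ i, ‖v i‖ = 1) ∧
      ∀ I : Finset (Fin m), (∀ i ∈ I, ∀ j ∈ I, i ≠ j → ε < mu2 t (v i) (v j)) →
        (I.card : ℝ) ≤ 13 * (m : ℝ) ^ (1 - c / (L * Real.log L))) := by
  intro t ht
  obtain ⟨C, L₁, hC, hL₁, h1⟩ := hs_lower (growth32 core) t ht
  obtain ⟨c, L₂, hc, hL₂, h2⟩ := hs_upper t ht
  refine ⟨C, c, max L₁ L₂, hC, hc, lt_max_of_lt_left hL₁, ?_⟩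
  intro ε L hε hL hL0
  exact ⟨h1 ε L hε hL ((le_max_left _ _).trans hL0), h2 ε L hε hL ((le_max_right _ _).trans hL0)⟩

end Pool.Agent.Results.MP_cecf76_co.HalfSpaces
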