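import Mathlib
import Pool.Agent.Lib.MP_cecf76_co.Core

set_option autoImplicit false

namespace Pool.Agent.Results.MP_cecf76_co.LowerBound

open Pool.Agent.Lib.MP_cecf76_co

/-- For all `0 < ε < c < 1` and all `n, m ≥ 1`,
`f(n, m, c, ε) ≥ (c/2) m^(1 - log(1/c)/log(c/ε))`; the exponent is at least `1/2` as soon as
`ε ≤ c³` and tends to `1` as `ε → 0`. -/
theorem result : ∀ c ε : ℝ, 0 < ε → ε < c → c < 1 → ∀ n m : ℕ, 0 < n → 0 < m →
    c / 2 * (m : ℝ) ^ (1 - Real.log (1 / c) / Real.log (c / ε)) ≤ (f n m c ε : ℝ) :=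
  fun _ _ hε hεc hc _ _ hn hm => lower hn hm hε hεc hc

end Pool.Agent.Results.MP_cecf76_co.LowerBound
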