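import Mathlib
import Pool.Agent.Lib.MP_cecf76_co.Core
import Pool.Agent.Lib.MP_cecf76_co.Half.Final
import Pool.Agent.Lib.MP_cecf76_co.Half.Upper

set_option autoImplicit false

namespace Pool.Agent.Results.MP_cecf76_co.NearHalf

open Pool.Agent.Lib.MP_cecf76_co

/-- For all `0 < ε ≤ c ≤ 1/2` and all `n, m ≥ 1`:
`(m/64) exp (-800 (1/2 - c + ε)² min (n, log₂ m)) ≤ f(n, m, c, ε)` and
`f(n, m, c, ε) ≤ 4 m exp (-(ε²/2) min (n/2, log₂ m))`. In particular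
`f(n, m, 1/2, ε) = m exp (-Θ(ε² min (n, log₂ m)))` with absolute constants. -/
theorem result : ∀ c ε : ℝ, 0 < ε → ε ≤ c → c ≤ 1 / 2 → ∀ n m : ℕ, 0 < n → 0 < m →
    1 / 64 * (m : ℝ) * Real.exp (-(800 * (1 / 2 - c + ε) ^ 2 *
      min (n : ℝ) (Real.log m / Real.log 2))) ≤ (f n m c ε : ℝ) ∧
    (f n m c ε : ℝ) ≤
      4 * m * Real.exp (-(ε ^ 2 / 2 * min ((n : ℝ) / 2) (Real.log m / Real.log 2))) := by
  intro c ε hε hεc hc n m hn hm
  exact ⟨Half.lower_half' hn hm (by linarith) hεc (by linarith),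
    Half.upper_fine hn hm hc hε (by linarith)⟩

end Pool.Agent.Results.MP_cecf76_co.NearHalf
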